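import Pool.Agent.Helper54.PI.Final

set_option autoImplicit false

namespace Pool.Agent.Results.MP_797ebb_an.NoBibasic

open Pool.Agent.Helper54.PI

/-- There is a separable infinite-dimensional Banach space without an infinite bibasic system
`(x_n, f_n)` such that `(f_n)` is equivalent to the sequence of the restrictions of the `f_n` to
the closed linear span of the `x_n`. -/
theorem result (𝕜 : Type) [RCLike 𝕜] :
    ∃ (E : Type) (_ : NormedAddCommGroup E) (_ : NormedSpace 𝕜 E),
      CompleteSpace E ∧ TopologicalSpace.SeparableSpace E ∧ ¬ FiniteDimensional 𝕜 E ∧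
        ∀ (x : ℕ → E) (f : ℕ → E →L[𝕜] 𝕜),
          Bibasic 𝕜 x f → ¬ SeqEquiv 𝕜 f (restr x f) := by
  obtain ⟨E, i1, i2, i3, h1, h2, h3⟩ := main_pi 𝕜
  exact ⟨E, i1, i2, i3, h1, h2, h3⟩

end Pool.Agent.Results.MP_797ebb_an.NoBibasic
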